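import Pool.Agent.Helper45.AM.GoalsA
import Pool.Agent.Helper45.AM.GoalsC
import Pool.Agent.Helper15.AM.GoalsG

/-!
# C_5: rewriting `T_x c_k T_y`, `k ∈ W_K`, tight case
-/

set_option autoImplicit false

open LaurentPolynomial Pool.Agent.Helper15.RA Pool.Agent.Helper45.AM

noncomputable section

namespace Pool.Agent.Helper24.AM

variable {S W H : Type} [Group W] [Ring H] [Algebra ℤ[T;T⁻¹] H]

theorem lin (X : AC S W H) (U Z V : H) :
    U * Z * V = (X.b.repr Z).sum fun z p => p • (U * X.D.c z * V) := by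
  conv_lhs => rw [← X.b.linearCombination_repr Z, Finsupp.linearCombination_apply]
  rw [Finsupp.sum, Finsupp.sum, Finset.mul_sum, Finset.sum_mul]
  refine Finset.sum_congr rfl fun z _ => ?_
  rw [X.hb, mul_smul_comm, smul_mul_assoc]

theorem mkEx (X : AC S W H) {x k y x' y' : W} (q : W →₀ ℤ[T;T⁻¹])
    (hB : X.B x k y = q.sum fun z p => p • X.B x' z y')
    (h : ∀ z, q z ≠ 0 → X.Adm x' z y' ∧ X.α k ≤ X.α z ∧
      (X.nn x' z y' < X.nn x k y ∨
        (X.nn x' z y' = X.nn x k y ∧ z ∉ par X.cs X.K ∧ (X.sl x' < X.sl x ∨ x' = 1))) ∧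
      ∀ M, DegLE ((X.α z : ℤ) - X.α k + X.eps M x' z y' - X.eps M x k y) (q z)) :
    X.Ex x k y := by
  classical
  have hi : Function.Injective fun z : W => ((x', z, y') : W × W × W) := fun z w hzw => by
    simpa using hzw
  refine ⟨q.mapDomain fun z => (x', z, y'), ?_, ?_⟩
  · rw [hB]
    have z1 : ∀ r : W × W × W, (0 : ℤ[T;T⁻¹]) • X.B r.1 r.2.1 r.2.2 = 0 := fun r => zero_smul _ _
    have z2 : ∀ (r : W × W × W) (m n : ℤ[T;T⁻¹]), (m + n) • X.B r.1 r.2.1 r.2.2 =
        m • X.B r.1 r.2.1 r.2.2 + n • X.B r.1 r.2.1 r.2.2 := fun r m n => add_smul _ _ _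
    exact (Finsupp.sum_mapDomain_index (s := q) (f := fun z => ((x', z, y') : W × W × W))
      (h := fun r p => p • X.B r.1 r.2.1 r.2.2) z1 z2).symm
  · intro r hr
    obtain ⟨z, hz, rfl⟩ := Finset.mem_image.1 (Finsupp.mapDomain_support hr)
    obtain ⟨h1, h2, h3, h4⟩ := h z (Finsupp.mem_support_iff.1 hz)
    refine ⟨h1, h2, h3, fun M => ?_⟩
    rw [Finsupp.mapDomain_apply hi]
    exact h4 M

/-- the degree condition for the leading term -/
theorem deg_lead (X : AC S W H) {x k y x' z y' : W} (M : ℕ) (h0 : X.α k ≤ X.α z)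
    (h : X.Ge M (x' * z) → X.Ge M (z * y') → ¬ X.Ge M (x * k) ∨ ¬ X.Ge M (k * y) →
      X.α k < X.α z) :
    (0 : ℤ) ≤ (X.α z : ℤ) - X.α k + X.eps M x' z y' - X.eps M x k y := by
  unfold AC.eps
  split_ifs with h1 h2 h2
  · omega
  · omega
  · push Not at h1
    have := h h1.1 h1.2 h2
    omega
  · omega

theorem h_c_5 (hGPA : Pool.Agent.Helper15.AM.G_PA) (hGPC : Pool.Agent.Helper15.AM.G_PC)
    (hS : A_S) (hK : A_K) (hL : A_L) (hP : A_P) (h1 : B_1) (h3 : B_3) (h5 : B_5) (h6 : B_6) :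
    Pool.Agent.Helper45.AM.C_5 := by
  intro S W H _ _ _ X b x k y hx hk hy hne
  obtain ⟨b1, -, b3, -, -, b6, -, b8, -, -, b11, -, -⟩ := h1 S W H X
  obtain ⟨-, -, -, -, -, -, -, s8, s9⟩ := h3 S W H X
  obtain ⟨-, -, -, -, g5, -, -, g8⟩ := h5 S W H X
  obtain ⟨c1, c2⟩ := h6 S W H X
  have pK : PG X.D X.h X.K X.α := X.pgK
  obtain ⟨-, kL, kR, -, -, -⟩ := hP S W H X.toBase X.K X.α pK
  have hadm : X.Adm x k y := Or.inr ⟨(b3 _ _).1 hx, hk, (b3 _ _).2 hy⟩
  obtain ⟨ge1, ge2, -⟩ := g8 x k y hadm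
  have nnk : X.nn x k y = X.sl x + X.sl y := by
    unfold AC.nn
    rw [if_pos hk, add_zero]
  -- supports in `W_P`
  have supp : ∀ (P : Set S) (Y Z : H), (∀ z, X.D.t.repr Y z ≠ 0 → z ∈ par X.cs P) →
      (∀ z, X.D.t.repr Z z ≠ 0 → z ∈ par X.cs P) → ∀ z, X.b.repr (Y * Z) z ≠ 0 →
      z ∈ par X.cs P := by
    intro P Y Z hY hZ
    obtain ⟨-, -, -, -, -, -, a7, -, -, a10, a11, -, a13⟩ := hS S W H X.toBase P
    refine (a7 (Y * Z)).1 fun z hz => ?_
    have e : X.pr P (Y * Z) = Y * Z := by rw [(a13 Z Y hY).2, a10 Z hZ]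
    exact (a11 (Y * Z) z (by rw [e]; exact hz)).1
  have supt : ∀ (P : Set S) (a : W), a ∈ par X.cs P → ∀ z, X.D.t.repr (X.D.t a) z ≠ 0 →
      z ∈ par X.cs P := by
    intro P a ha z hz
    rw [Module.Basis.repr_self] at hz
    have : z = a := by
      by_contra h
      exact hz (Finsupp.single_eq_of_ne h)
    rwa [this]
  have supc : ∀ (P : Set S) (a : W), a ∈ par X.cs P → ∀ z, X.D.t.repr (X.D.c a) z ≠ 0 →
      z ∈ par X.cs P := fun P => (hS S W H X.toBase P).2.2.2.1
  by_cases hx1 : x = 1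
  · have hy1 : y ≠ 1 := hne.resolve_left fun h => h hx1
    subst hx1
    obtain ⟨a, y', rfl, hy', ha, haK, ha1, hl⟩ := b11 (!b) y hy hy1
    rw [Bool.not_not] at hy' ha
    have hak : a ∉ par X.cs X.K := fun h => ha1 (b8 a (Or.inr haK) h)
    have hsl : X.sl (a * y') = X.sl y' + 1 := s9 b y' a hy' ha hak
    have hkb : k ∈ par X.cs (X.F b) := b1 b hk
    obtain ⟨-, -, -, -, -, pm⟩ := hP S W H X.toBase (X.F b) X.α (X.pg b)
    obtain ⟨-, -, -, -, gl, -, -⟩ := hGPC S W X.M X.cs X.K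
    obtain ⟨k1, k2, k3, -⟩ := hL S W H X.toBase X.K k a haK hk
    have hz : ∀ z, X.b.repr (X.D.c k * X.D.t a) z ≠ 0 → z ∈ par X.cs (X.F b) :=
      supp (X.F b) _ _ (supc _ _ hkb) (supt _ _ ha)
    refine mkEx X (x' := 1) (y' := y') (X.b.repr (X.D.c k * X.D.t a)) ?_ ?_
    · show X.D.t 1 * X.D.c k * X.D.t (a * y') = _
      rw [← X.D.mul a y' hl, ← mul_assoc, mul_assoc (X.D.t 1), lin X]
      rfl
    · intro z hz0
      have hzb := hz z hz0
      have hα : X.α k ≤ X.α z := by
        by_cases hzk : z = k * a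
        · rw [hzk]
          exact (pm k hkb a ha (gl a haK k hk)).1
        · obtain ⟨g', y'', hg', hy'', rfl, -, hle⟩ := k3 z hzk hz0
          have hg'b : g' ∈ par X.cs (X.F b) := b1 b hg'
          have hy''b : y'' ∈ par X.cs (X.F b) := by
            have := mul_mem (inv_mem hg'b) hzb
            rwa [inv_mul_cancel_left] at this
          exact (kR g' k hk hle).2.trans (pm g' hg'b y'' hy''b (gl y'' hy'' g' hg')).1
      refine ⟨Or.inl ⟨b, hx, hzb, hy'⟩, hα, ?_, fun M => ?_⟩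
      · rw [nnk, hsl]
        unfold AC.nn
        by_cases hzK : z ∈ par X.cs X.K
        · left
          rw [if_pos hzK]
          omega
        · right
          rw [if_neg hzK]
          exact ⟨by omega, hzK, Or.inr rfl⟩
      · by_cases hzk : z = k * a
        · subst hzk
          rw [k1]
          refine DegLE.one (deg_lead X M hα ?_)
          intro e1 e2 e3
          rw [mul_assoc] at e2
          have e4 : ¬ X.Ge M (1 * k) := e3.resolve_right fun h => h e2
          have e5 := (c1 b 1 k a hx hk haK hzb M e1).resolve_right e4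
          have e6 : ¬ M ≤ X.α k := fun h => e4 (g5 _ _ _ h ge1)
          omega
        · refine (k2 z hzk).mono ?_
          have := X.eps_nonneg M 1 z y'
          have := X.eps_le_one M 1 k (a * y')
          omega
  · obtain ⟨x', a, rfl, hx', ha, haK, ha1, hl⟩ := b6 b x hx hx1
    have hak : a ∉ par X.cs X.K := fun h => ha1 (b8 a (Or.inl haK) h)
    have hsl : X.sl (x' * a) = X.sl x' + 1 := s8 (!b) x' a hx' ha hak
    have hkb : k ∈ par X.cs (X.F (!b)) := b1 (!b) hk
    obtain ⟨-, -, -, -, -, pm⟩ := hP S W H X.toBase (X.F (!b)) X.α (X.pg (!b))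
    obtain ⟨-, -, gl⟩ := hGPA S W X.M X.cs X.K
    obtain ⟨k1, k2, k3, -⟩ := hK S W H X.toBase X.K a k haK hk
    have hz : ∀ z, X.b.repr (X.D.t a * X.D.c k) z ≠ 0 → z ∈ par X.cs (X.F (!b)) :=
      supp (X.F (!b)) _ _ (supt _ _ ha) (supc _ _ hkb)
    refine mkEx X (x' := x') (y' := y) (X.b.repr (X.D.t a * X.D.c k)) ?_ ?_
    · show X.D.t (x' * a) * X.D.c k * X.D.t y = _
      rw [← X.D.mul x' a hl, mul_assoc (X.D.t x'), lin X]
      rfl
    · intro z hz0
      have hzb := hz z hz0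
      have hα : X.α k ≤ X.α z := by
        by_cases hzk : z = a * k
        · rw [hzk]
          exact (pm a ha k hkb (gl a haK k hk)).2
        · obtain ⟨x'', g', hx'', hg', rfl, -, hle⟩ := k3 z hzk hz0
          have hg'b : g' ∈ par X.cs (X.F (!b)) := b1 (!b) hg'
          have hx''b : x'' ∈ par X.cs (X.F (!b)) := by
            have := mul_mem hzb (inv_mem hg'b)
            rwa [mul_inv_cancel_right] at this
          exact (kL g' k hk hle).2.trans (pm x'' hx''b g' hg'b (gl x'' hx'' g' hg')).2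
      refine ⟨Or.inl ⟨!b, hx', hzb, hy⟩, hα, ?_, fun M => ?_⟩
      · rw [nnk, hsl]
        unfold AC.nn
        by_cases hzK : z ∈ par X.cs X.K
        · left
          rw [if_pos hzK]
          omega
        · right
          rw [if_neg hzK]
          exact ⟨by omega, hzK, Or.inl (by omega)⟩
      · by_cases hzk : z = a * k
        · subst hzk
          rw [k1]
          refine DegLE.one (deg_lead X M hα ?_)
          intro e1 e2 e3
          rw [← mul_assoc] at e1
          have e4 : ¬ X.Ge M (k * y) := e3.resolve_left fun h => h e1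
          have e5 := (c2 (!b) a k y haK hk hy hzb M e2).resolve_right e4
          have e6 : ¬ M ≤ X.α k := fun h => e4 (g5 _ _ _ h ge2)
          omega
        · refine (k2 z hzk).mono ?_
          have := X.eps_nonneg M x' z y
          have := X.eps_le_one M (x' * a) k y
          omega

end Pool.Agent.Helper24.AM
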